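import Mathlib

/-!
Definitions for the anisotropic Brezis-Nirenberg problem
`- div (a ∇u) = lam b u + c |u|^(2* - 2) u` in `Θ`, `u = 0` on the boundary of `Θ`.
-/

open MeasureTheory Set Filter Topology
open scoped ENNReal NNReal ContDiff

namespace Pool.Agent.Q62.AG

/-- `ℝⁿ` -/
abbrev E (n : ℕ) := EuclideanSpace ℝ (Fin n)

/-- `φ ∈ C_c^∞(Θ)` -/
def IsTest {n : ℕ} (Θ : Set (E n)) (φ : E n → ℝ) : Prop :=
  ContDiff ℝ ∞ φ ∧ HasCompactSupport φ ∧ tsupport φ ⊆ Θ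

/-- `u ∈ H¹₀(Θ)` and `g = ∇u`: the pair `(u, g)` is the limit in `L²` of pairs `(φ k, ∇φ k)` with
`φ k ∈ C_c^∞(Θ)` -/
def InH10 {n : ℕ} (Θ : Set (E n)) (u : E n → ℝ) (g : E n → E n) : Prop :=
  MemLp u 2 volume ∧ MemLp g 2 volume ∧ ∃ φ : ℕ → E n → ℝ, (∀ k, IsTest Θ (φ k)) ∧
    Tendsto (fun k => eLpNorm (φ k - u) 2 volume) atTop (𝓝 0) ∧
    Tendsto (fun k => eLpNorm (gradient (φ k) - g) 2 volume) atTop (𝓝 0)

/-- the critical exponent `2* = 2 n / (n - 2)` -/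
noncomputable def twoStar (n : ℕ) : ℝ := 2 * n / ((n : ℝ) - 2)

/-- the energy `J_lam(u)`, with `g = ∇u` -/
noncomputable def J {n : ℕ} (Θ : Set (E n)) (a b c : E n → ℝ) (lam : ℝ) (u : E n → ℝ)
    (g : E n → E n) : ℝ :=
  (1 / 2) * (∫ x in Θ, a x * ‖g x‖ ^ 2) - (lam / 2) * (∫ x in Θ, b x * (u x) ^ 2)
    - (1 / twoStar n) * ∫ x in Θ, c x * |u x| ^ twoStar n

/-- `J_lam'(u) u`, with `g = ∇u` -/
noncomputable def dJ {n : ℕ} (Θ : Set (E n)) (a b c : E n → ℝ) (lam : ℝ) (u : E n → ℝ)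
    (g : E n → E n) : ℝ :=
  (∫ x in Θ, a x * ‖g x‖ ^ 2) - lam * (∫ x in Θ, b x * (u x) ^ 2)
    - ∫ x in Θ, c x * |u x| ^ twoStar n

/-- `u` is in the Nehari manifold, `g = ∇u` -/
def InNehari {n : ℕ} (Θ : Set (E n)) (a b c : E n → ℝ) (lam : ℝ) (u : E n → ℝ)
    (g : E n → E n) : Prop :=
  InH10 Θ u g ∧ ¬ u =ᵐ[volume] 0 ∧ dJ Θ a b c lam u g = 0

/-- the ground-state level `ℓ_lam = inf_{Nehari} J_lam` -/
noncomputable def level {n : ℕ} (Θ : Set (E n)) (a b c : E n → ℝ) (lam : ℝ) : EReal :=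
  sInf {q | ∃ u g, InNehari Θ a b c lam u g ∧ q = (J Θ a b c lam u g : ℝ)}

/-- `mu` is an eigenvalue of `- div (a ∇u) = mu b u` in `Θ`, `u = 0` on the boundary -/
def IsEigenvalue {n : ℕ} (Θ : Set (E n)) (a b : E n → ℝ) (mu : ℝ) : Prop :=
  ∃ u g, InH10 Θ u g ∧ ¬ u =ᵐ[volume] 0 ∧ ∀ v h, InH10 Θ v h →
    ∫ x in Θ, a x * inner ℝ (g x) (h x) = mu * ∫ x in Θ, b x * (u x * v x)

/-- the first eigenvalue -/
noncomputable def lam1 {n : ℕ} (Θ : Set (E n)) (a b : E n → ℝ) : EReal :=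
  sInf ((fun mu : ℝ => (mu : EReal)) '' {mu | IsEigenvalue Θ a b mu})

/-- the best Sobolev constant -/
noncomputable def sobolevS (n : ℕ) : ℝ :=
  sInf {q | ∃ φ : E n → ℝ, IsTest univ φ ∧ φ ≠ 0 ∧
    q = (∫ x, ‖gradient φ x‖ ^ 2) / (∫ x, |φ x| ^ twoStar n) ^ (2 / twoStar n)}

/-- the function `f = a^(n/2) / c^((n-2)/2)` -/
noncomputable def fac {n : ℕ} (a c : E n → ℝ) (x : E n) : ℝ :=
  a x ^ ((n : ℝ) / 2) / c x ^ (((n : ℝ) - 2) / 2)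

/-- the threshold `κ = (min f) (1/n) S^(n/2)` -/
noncomputable def kappa {n : ℕ} (Θ : Set (E n)) (a c : E n → ℝ) : ℝ :=
  sInf (fac a c '' closure Θ) * (1 / n * sobolevS n ^ ((n : ℝ) / 2))

/-- `lam_{0,*} = inf {lam < lam_1 : ℓ_lam < κ}`, as an extended real number -/
noncomputable def lamStar {n : ℕ} (Θ : Set (E n)) (a b c : E n → ℝ) : EReal :=
  sInf ((fun lam : ℝ => (lam : EReal)) ''
    {lam | (lam : EReal) < lam1 Θ a b ∧ level Θ a b c lam < (kappa Θ a c : ℝ)})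

end Pool.Agent.Q62.AG
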