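import Pool.Agent.Q62.AG.Sob

open MeasureTheory Set Filter Topology
open scoped ENNReal NNReal ContDiff

namespace Pool.Agent.Q62.AG

/-- elements of `H¹₀(Θ)` vanish outside of `Θ` -/
theorem H10_vanish {n : ℕ} (Θ : Set (E n)) (u : E n → ℝ) (g : E n → E n) (hw : InH10 Θ u g) :
    ∀ᵐ x ∂(volume : Measure (E n)), x ∉ Θ → u x = 0 := by
  obtain ⟨hu, hg, z, hz, hlim, -⟩ := hw
  have hm : TendstoInMeasure volume z atTop u := by
    refine tendstoInMeasure_of_tendsto_eLpNorm (p := 2) (by norm_num) (fun k => ?_)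
      hu.aestronglyMeasurable hlim
    exact (hz k).1.continuous.aestronglyMeasurable
  obtain ⟨ns, -, hns⟩ := hm.exists_seq_tendsto_ae
  filter_upwards [hns] with x h1 hxΘ
  have h3 : Tendsto (fun i => z (ns i) x) atTop (𝓝 0) := by
    have : (fun i => z (ns i) x) = fun _ => (0 : ℝ) := by
      funext i
      by_contra hne
      exact hxΘ ((hz (ns i)).2.2 (subset_tsupport _ hne))
    rw [this]
    exact tendsto_const_nhds
  exact tendsto_nhds_unique h1 h3

theorem bdd_on {n : ℕ} (Θ : Set (E n)) (hb : Bornology.IsBounded Θ) (b : E n → ℝ)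
    (hc : Continuous b) : ∃ B : ℝ, ∀ x ∈ Θ, ‖b x‖ ≤ B := by
  have hK : IsCompact (closure Θ) := hb.isCompact_closure
  obtain ⟨B, hB⟩ := hK.exists_bound_of_continuousOn hc.continuousOn
  exact ⟨B, fun x hx => hB x (subset_closure hx)⟩

/-- all eigenvalues are nonnegative -/
theorem lam1_nonneg {n : ℕ} (Θ : Set (E n)) (ho : IsOpen Θ) (hb : Bornology.IsBounded Θ)
    (a b : E n → ℝ) (ha : ∀ x, 0 < a x) (hbc : Continuous b) (hbp : ∀ x, 0 < b x) :
    0 ≤ lam1 Θ a b := by
  refine le_sInf ?_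
  rintro _ ⟨mu, ⟨u, g, hw, hw0, h⟩, rfl⟩
  have hv := h u g hw
  have h1 : 0 ≤ ∫ x in Θ, a x * inner ℝ (g x) (g x) :=
    integral_nonneg (fun x => mul_nonneg (ha x).le real_inner_self_nonneg)
  obtain ⟨B, hB⟩ := bdd_on Θ hb b hbc
  have hsq : Integrable (fun x => (u x) ^ 2) (volume : Measure (E n)) := hw.1.integrable_sq
  have hint : Integrable (fun x => b x * (u x) ^ 2) ((volume : Measure (E n)).restrict Θ) := by
    refine (hsq.integrableOn (s := Θ)).bdd_mul (c := B) ?_ ?_
    · exact hbc.aestronglyMeasurable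
    · exact ae_restrict_of_forall_mem ho.measurableSet hB
  have h2 : 0 < ∫ x in Θ, b x * (u x * u x) := by
    have e : (fun x => b x * (u x * u x)) = fun x => b x * (u x) ^ 2 := by
      funext x; ring
    rw [e]
    have hnn : 0 ≤ ∫ x in Θ, b x * (u x) ^ 2 :=
      integral_nonneg (fun x => mul_nonneg (hbp x).le (sq_nonneg _))
    refine lt_of_le_of_ne hnn (fun h0 => hw0 ?_)
    have h3 := (integral_eq_zero_iff_of_nonneg (μ := (volume : Measure (E n)).restrict Θ)
      (fun x => mul_nonneg (hbp x).le (sq_nonneg _)) hint).1 h0.symm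
    have h4 : ∀ᵐ x ∂(volume : Measure (E n)), x ∈ Θ → b x * (u x) ^ 2 = 0 :=
      (ae_restrict_iff' ho.measurableSet).1 h3
    filter_upwards [h4, H10_vanish Θ u g hw] with x h5 h6
    by_cases hx : x ∈ Θ
    · have h7 := h5 hx
      have := (hbp x).ne'
      simpa [this] using h7
    · exact h6 hx
  rw [hv] at h1
  have : 0 ≤ mu := by
    by_contra hneg
    push Not at hneg
    nlinarith
  exact EReal.coe_nonneg.2 this

/-- test functions are in `H¹₀` -/
theorem inH10_test {n : ℕ} (Θ : Set (E n)) (φ : E n → ℝ) (hφ : IsTest Θ φ) :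
    InH10 Θ φ (gradient φ) := by
  have h1 : ContDiff ℝ 1 φ := hφ.1.of_le (by norm_cast)
  have hm1 : MemLp φ 2 (volume : Measure (E n)) := h1.continuous.memLp_of_hasCompactSupport hφ.2.1
  have hgc : Continuous (gradient φ) := by
    have := h1.continuous_fderiv (by norm_num)
    unfold gradient
    exact (InnerProductSpace.toDual ℝ (E n)).symm.continuous.comp this
  have hgs : HasCompactSupport (gradient φ) := by
    refine (hφ.2.1.fderiv ℝ).mono ?_
    intro x hx
    simp only [Function.mem_support, ne_eq] at hx ⊢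
    intro h0
    apply hx
    unfold gradient
    rw [h0, map_zero]
  have hm2 : MemLp (gradient φ) 2 (volume : Measure (E n)) := hgc.memLp_of_hasCompactSupport hgs
  refine ⟨hm1, hm2, fun _ => φ, fun _ => hφ, ?_, ?_⟩
  · simp
  · simp

theorem isTest_smul {n : ℕ} (Θ : Set (E n)) (φ : E n → ℝ) (hφ : IsTest Θ φ) (t : ℝ) :
    IsTest Θ (fun x => t * φ x) := by
  refine ⟨contDiff_const.mul hφ.1, hφ.2.1.mul_left, ?_⟩
  refine (closure_mono ?_).trans hφ.2.2
  intro x hx
  simp only [Function.mem_support, ne_eq] at hx ⊢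
  intro h0
  apply hx
  rw [h0, mul_zero]

theorem gradient_smul' {n : ℕ} (φ : E n → ℝ) (h : ContDiff ℝ 1 φ) (t : ℝ) (x : E n) :
    gradient (fun y => t * φ y) x = t • gradient φ x := by
  unfold gradient
  have hd : DifferentiableAt ℝ φ x := (h.differentiable (by norm_num)).differentiableAt
  rw [fderiv_const_mul hd]
  simp

/-- upper bound of the ground-state level by a test function -/
theorem level_le {n : ℕ} (hn : 3 ≤ n) (Θ : Set (E n)) (a b c : E n → ℝ) (lam : ℝ)
    (φ : E n → ℝ) (hφ : IsTest Θ φ) (hφ0 : φ ≠ 0) (A B C : ℝ)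
    (hA : ∫ x in Θ, a x * ‖gradient φ x‖ ^ 2 = A)
    (hB : ∫ x in Θ, b x * (φ x) ^ 2 = B)
    (hC : ∫ x in Θ, c x * |φ x| ^ twoStar n = C)
    (hQ : 0 < A - lam * B) (hCp : 0 < C) :
    level Θ a b c lam ≤
      ((1 / n * ((A - lam * B) ^ ((n : ℝ) / 2) / C ^ (((n : ℝ) - 2) / 2)) : ℝ) : EReal) := by
  have h3 : (3 : ℝ) ≤ n := by exact_mod_cast hn
  have hts := twoStar_pos hn
  have h1 : ContDiff ℝ 1 φ := hφ.1.of_le (by norm_cast)
  set Q := A - lam * B with hQdef
  have hQC : 0 < Q / C := div_pos hQ hCp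
  set t : ℝ := (Q / C) ^ (((n : ℝ) - 2) / 4) with ht
  have htp : 0 < t := Real.rpow_pos_of_pos hQC _
  set u : E n → ℝ := fun x => t * φ x with hu
  set g : E n → E n := gradient u with hg
  have hw : InH10 Θ u g := inH10_test Θ _ (isTest_smul Θ φ hφ t)
  have e2 : ∫ x in Θ, a x * ‖g x‖ ^ 2 = t ^ 2 * A := by
    rw [← hA, ← integral_const_mul]
    refine integral_congr_ae (Eventually.of_forall fun x => ?_)
    simp only
    rw [hg, hu, gradient_smul' φ h1 t x, norm_smul, mul_pow, Real.norm_eq_abs, sq_abs]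
    ring
  have e1 : ∫ x in Θ, b x * (u x) ^ 2 = t ^ 2 * B := by
    rw [← hB, ← integral_const_mul]
    refine integral_congr_ae (Eventually.of_forall fun x => ?_)
    simp only [hu]
    ring
  have e3 : ∫ x in Θ, c x * |u x| ^ twoStar n = t ^ twoStar n * C := by
    rw [← hC, ← integral_const_mul]
    refine integral_congr_ae (Eventually.of_forall fun x => ?_)
    simp only [hu]
    rw [abs_mul, abs_of_pos htp, Real.mul_rpow htp.le (abs_nonneg _)]
    ring
  have hn2 : (n : ℝ) - 2 ≠ 0 := by linarith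
  have hn0 : (n : ℝ) ≠ 0 := by linarith
  have et2 : t ^ 2 = (Q / C) ^ (((n : ℝ) - 2) / 2) := by
    rw [ht, ← Real.rpow_natCast, ← Real.rpow_mul hQC.le]
    congr 1
    push_cast
    ring
  have ets : t ^ twoStar n * C = t ^ 2 * Q := by
    have h4 : t ^ twoStar n = (Q / C) ^ ((n : ℝ) / 2) := by
      rw [ht, ← Real.rpow_mul hQC.le]
      congr 1
      unfold twoStar
      field_simp
      ring
    rw [h4, et2, show (n : ℝ) / 2 = ((n : ℝ) - 2) / 2 + 1 by ring, Real.rpow_add hQC,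
      Real.rpow_one]
    field_simp
  have hdJ : dJ Θ a b c lam u g = 0 := by
    unfold dJ
    rw [e1, e2, e3, ets, hQdef]
    ring
  have hw0 : ¬ u =ᵐ[volume] 0 := by
    intro h0
    apply hφ0
    have h7 := (Continuous.ae_eq_iff_eq (volume : Measure (E n))
      (continuous_const.mul h1.continuous) continuous_const).1 h0
    funext x
    rcases mul_eq_zero.1 (congrFun h7 x) with h8 | h8
    · exact absurd h8 htp.ne'
    · exact h8
  have hJ : J Θ a b c lam u g = 1 / n * (Q ^ ((n : ℝ) / 2) / C ^ (((n : ℝ) - 2) / 2)) := by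
    unfold J
    rw [e1, e2, e3, ets]
    have h8 : t ^ 2 * Q = Q ^ ((n : ℝ) / 2) / C ^ (((n : ℝ) - 2) / 2) := by
      rw [et2, Real.div_rpow hQ.le hCp.le, show (n : ℝ) / 2 = ((n : ℝ) - 2) / 2 + 1 by ring,
        Real.rpow_add hQ, Real.rpow_one]
      ring
    rw [← h8]
    have h9 : 1 / 2 * (t ^ 2 * A) - lam / 2 * (t ^ 2 * B) = 1 / 2 * (t ^ 2 * Q) := by
      rw [hQdef]; ring
    rw [h9]
    unfold twoStar
    field_simp
    ring
  refine sInf_le ⟨u, g, ⟨hw, hw0, hdJ⟩, ?_⟩
  rw [hJ]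

end Pool.Agent.Q62.AG
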