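import Pool.Agent.Q62.AG.Lev

open MeasureTheory Set Filter Topology
open scoped ENNReal NNReal ContDiff

namespace Pool.Agent.Q62.AG

/-- every positive smooth function is `a^(n/2)/c^((n-2)/2)` for coefficients with arbitrarily
negative `lam_{0,*}` -/
theorem exists_coeff (n : ℕ) (hn : 3 ≤ n) (Θ : Set (E n)) (ho : IsOpen Θ)
    (hbd : Bornology.IsBounded Θ) (hne : Θ.Nonempty) (b : E n → ℝ) (hbc : Continuous b)
    (hbp : ∀ x, 0 < b x) (M : ℝ) (F : E n → ℝ) (hF : ContDiff ℝ ∞ F) (hFp : ∀ x, 0 < F x) :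
    ∃ a c : E n → ℝ, ContDiff ℝ ∞ a ∧ ContDiff ℝ ∞ c ∧ (∀ x, 0 < a x) ∧ (∀ x, 0 < c x) ∧
      (∀ x, fac a c x = F x) ∧ lamStar Θ a b c ≤ ((-M : ℝ) : EReal) := by
  have h3 : (3 : ℝ) ≤ n := by exact_mod_cast hn
  have hn2 : (0 : ℝ) < (n : ℝ) - 2 := by linarith
  have hts := twoStar_pos hn
  obtain ⟨x0, hx0⟩ := hne
  obtain ⟨r, hr, φ, hφ, hφ1, hφ01⟩ := exists_test Θ ho x0 hx0
  have hφC1 : ContDiff ℝ 1 φ := hφ.1.of_le (by norm_cast)
  have hφ0 : φ ≠ 0 := by
    intro h0
    have := hφ1 x0 (Metric.mem_closedBall_self hr.le)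
    rw [h0] at this
    simp at this
  let χ : ContDiffBump x0 := ⟨r / 2, r, by positivity, by linarith⟩
  have hχg : ∀ x, χ x * ‖gradient φ x‖ ^ 2 = 0 := by
    intro x
    by_cases hx : χ x = 0
    · rw [hx, zero_mul]
    · have hxb : x ∈ Metric.ball x0 r := by
        have : x ∈ Function.support χ := hx
        rwa [χ.support_eq] at this
      have hev : φ =ᶠ[𝓝 x] fun _ => (1 : ℝ) := by
        filter_upwards [Metric.isOpen_ball.mem_nhds hxb] with y hy
        exact hφ1 y (Metric.ball_subset_closedBall hy)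
      have hg : gradient φ x = 0 := by
        unfold gradient
        rw [hev.fderiv_eq]
        simp
      rw [hg]
      simp
  -- data independent of `K`
  set A : ℝ := ∫ x in Θ, ‖gradient φ x‖ ^ 2 with hA
  set B : ℝ := ∫ x in Θ, b x * (φ x) ^ 2 with hB
  set M' : ℝ := max M 1 with hM'
  have hM'1 : 1 ≤ M' := le_max_right _ _
  have hMM' : M ≤ M' := le_max_left _ _
  have hA0 : 0 ≤ A := integral_nonneg (fun x => sq_nonneg _)
  have hφint : Integrable (fun x => b x * (φ x) ^ 2) (volume : Measure (E n)) := by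
    refine Continuous.integrable_of_hasCompactSupport
      (hbc.mul (hφC1.continuous.pow 2)) (hφ.2.1.mono ?_)
    intro x hx
    simp only [Function.mem_support, ne_eq] at hx ⊢
    intro h0
    apply hx
    rw [h0]; ring
  have hBfull : B = ∫ x, b x * (φ x) ^ 2 := by
    rw [hB]
    refine setIntegral_eq_integral_of_forall_compl_eq_zero (fun x hx => ?_)
    have : φ x = 0 := by
      by_contra hne
      exact hx (hφ.2.2 (subset_tsupport _ hne))
    rw [this]; ring
  have hB0 : 0 < B := by
    rw [hBfull]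
    refine (hbc.mul (hφC1.continuous.pow 2)).integral_pos_of_hasCompactSupport_nonneg_nonzero
      (x := x0) (hφ.2.1.mono ?_) (fun x => mul_nonneg (hbp x).le (sq_nonneg _)) ?_
    · intro x hx
      simp only [Function.mem_support, ne_eq] at hx ⊢
      intro h0
      apply hx
      rw [h0]; ring
    · rw [hφ1 x0 (Metric.mem_closedBall_self hr.le)]
      have := (hbp x0).ne'
      simpa using this
  set Q : ℝ := A - (-M') * B with hQdef
  have hQ : 0 < Q := by
    rw [hQdef]; nlinarith
  -- the weight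
  set g : E n → ℝ := fun x => F x ^ (-(2 / ((n : ℝ) - 2))) with hg
  have hgc : Continuous g := hF.continuous.rpow_const (fun x => Or.inl (hFp x).ne')
  have hgp : ∀ x, 0 < g x := fun x => Real.rpow_pos_of_pos (hFp x) _
  set γ : ℝ := ∫ x in Metric.closedBall x0 (r / 2), g x with hγ
  have hγp : 0 < γ := by
    rw [hγ]
    have hint : IntegrableOn g (Metric.closedBall x0 (r / 2)) volume :=
      hgc.continuousOn.integrableOn_compact (isCompact_closedBall _ _)
    rw [setIntegral_pos_iff_support_of_nonneg_ae (Eventually.of_forall fun x => (hgp x).le) hint]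
    have : Function.support g = univ := by
      ext x; simp [(hgp x).ne']
    rw [this, univ_inter]
    exact (Metric.measure_closedBall_pos volume x0 (by positivity))
  -- the minimum of `F`
  set m : ℝ := sInf (F '' closure Θ) with hm
  have hmp : 0 < m := by
    have hK : IsCompact (closure Θ) := hbd.isCompact_closure
    have hKne : (closure Θ).Nonempty := ⟨x0, subset_closure hx0⟩
    obtain ⟨y, hy, hy2⟩ := hK.exists_sInf_image_eq hKne hF.continuous.continuousOn
    rw [hm, hy2]
    exact hFp y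
  have hS := sobolevS_pos n hn
  set T : ℝ := Q ^ ((n : ℝ) / 2) / (m * sobolevS n ^ ((n : ℝ) / 2)) with hT
  have hT0 : 0 < T := by positivity
  set X : ℝ := (T + 1) ^ (2 / ((n : ℝ) - 2)) with hX
  have hXp : 0 < X := by positivity
  have hXT : T < X ^ (((n : ℝ) - 2) / 2) := by
    rw [hX, ← Real.rpow_mul (by positivity)]
    have : 2 / ((n : ℝ) - 2) * (((n : ℝ) - 2) / 2) = 1 := by field_simp
    rw [this, Real.rpow_one]
    linarith
  set K : ℝ := X / γ with hK
  have hKp : 0 < K := by positivity
  set a : E n → ℝ := fun x => 1 + K * χ x with ha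
  have hap : ∀ x, 1 ≤ a x := fun x => by
    have := χ.nonneg (x := x)
    rw [ha]
    simp only
    nlinarith [mul_nonneg hKp.le this]
  have hap0 : ∀ x, 0 < a x := fun x => lt_of_lt_of_le one_pos (hap x)
  have haC : ContDiff ℝ ∞ a := contDiff_const.add (contDiff_const.mul χ.contDiff)
  set c : E n → ℝ := fun x => a x ^ ((n : ℝ) / ((n : ℝ) - 2)) * g x with hc
  have hcp : ∀ x, 0 < c x := fun x => mul_pos (Real.rpow_pos_of_pos (hap0 x) _) (hgp x)
  have hcC : ContDiff ℝ ∞ c :=
    (haC.rpow_const_of_ne (fun x => (hap0 x).ne')).mul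
      (hF.rpow_const_of_ne (fun x => (hFp x).ne'))
  have hfac : ∀ x, fac a c x = F x := by
    intro x
    unfold fac
    rw [hc]
    simp only
    rw [Real.mul_rpow (Real.rpow_nonneg (hap0 x).le _) (hgp x).le, ← Real.rpow_mul (hap0 x).le, hg]
    simp only
    rw [← Real.rpow_mul (hFp x).le]
    have e1 : (n : ℝ) / ((n : ℝ) - 2) * (((n : ℝ) - 2) / 2) = (n : ℝ) / 2 := by field_simp
    have e2 : -(2 / ((n : ℝ) - 2)) * (((n : ℝ) - 2) / 2) = -1 := by field_simp
    rw [e1, e2, Real.rpow_neg_one]
    have : a x ^ ((n : ℝ) / 2) ≠ 0 := (Real.rpow_pos_of_pos (hap0 x) _).ne'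
    have := (hFp x).ne'
    field_simp
  refine ⟨a, c, haC, hcC, hap0, hcp, hfac, ?_⟩
  -- the three integrals
  have iA : ∫ x in Θ, a x * ‖gradient φ x‖ ^ 2 = A := by
    rw [hA]
    refine integral_congr_ae (Eventually.of_forall fun x => ?_)
    have := hχg x
    rw [ha]
    simp only
    linear_combination K * this
  set C : ℝ := ∫ x in Θ, c x * |φ x| ^ twoStar n with hCdef
  have hccont : Continuous fun x => c x * |φ x| ^ twoStar n :=
    hcC.continuous.mul (hφC1.continuous.abs.rpow_const (fun x => Or.inr (by linarith)))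
  have hcint : Integrable (fun x => c x * |φ x| ^ twoStar n) (volume : Measure (E n)) := by
    refine Continuous.integrable_of_hasCompactSupport hccont (hφ.2.1.mono ?_)
    intro x hx
    simp only [Function.mem_support, ne_eq] at hx ⊢
    intro h0
    apply hx
    rw [h0, abs_zero, Real.zero_rpow (by linarith), mul_zero]
  have hCge : X ≤ C := by
    have hfull : C = ∫ x, c x * |φ x| ^ twoStar n := by
      rw [hCdef]
      refine setIntegral_eq_integral_of_forall_compl_eq_zero (fun x hx => ?_)
      have : φ x = 0 := by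
        by_contra hne
        exact hx (hφ.2.2 (subset_tsupport _ hne))
      rw [this, abs_zero, Real.zero_rpow (by linarith), mul_zero]
    have h5 : ∫ x in Metric.closedBall x0 (r / 2), c x * |φ x| ^ twoStar n ≤ C := by
      rw [hfull]
      exact setIntegral_le_integral hcint
        (Eventually.of_forall fun x => mul_nonneg (hcp x).le (by positivity))
    have h6 : ∫ x in Metric.closedBall x0 (r / 2), K * g x
        ≤ ∫ x in Metric.closedBall x0 (r / 2), c x * |φ x| ^ twoStar n := by
      refine setIntegral_mono_on ?_ hcint.integrableOn measurableSet_closedBall ?_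
      · exact ((continuous_const.mul hgc).continuousOn.integrableOn_compact
          (isCompact_closedBall _ _))
      · intro x hx
        have hx1 : φ x = 1 := hφ1 x (Metric.closedBall_subset_closedBall (by linarith) hx)
        have hx2 : χ x = 1 := χ.one_of_mem_closedBall hx
        have hax : a x = 1 + K := by rw [ha]; simp only; rw [hx2, mul_one]
        rw [hx1, abs_one, Real.one_rpow, mul_one, hc]
        simp only
        rw [hax]
        refine mul_le_mul_of_nonneg_right ?_ (hgp x).le
        have h7 : (1 + K) ^ (1 : ℝ) ≤ (1 + K) ^ ((n : ℝ) / ((n : ℝ) - 2)) := by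
          refine Real.rpow_le_rpow_of_exponent_le (by linarith) ?_
          rw [le_div_iff₀ hn2]
          linarith
        rw [Real.rpow_one] at h7
        linarith
    rw [integral_const_mul] at h6
    have h8 : K * γ = X := by rw [hK]; field_simp
    rw [← h8]
    exact h6.trans h5
  have hCp : 0 < C := lt_of_lt_of_le hXp hCge
  have hlev := level_le hn Θ a b c (-M') φ hφ hφ0 A B C iA hB.symm hCdef.symm hQ hCp
  have hmem : (-M' : ℝ) ∈ {lam : ℝ | (lam : EReal) < lam1 Θ a b ∧
      level Θ a b c lam < (kappa Θ a c : ℝ)} := by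
    refine ⟨?_, ?_⟩
    · refine lt_of_lt_of_le ?_ (lam1_nonneg Θ ho hbd a b hap0 hbc hbp)
      have : (-M' : ℝ) < 0 := by linarith
      exact_mod_cast this
    · refine lt_of_le_of_lt hlev ?_
      rw [EReal.coe_lt_coe_iff]
      unfold kappa
      have e : fac a c '' closure Θ = F '' closure Θ := by
        refine image_congr (fun x _ => hfac x)
      rw [e, ← hm]
      have hn0 : (0 : ℝ) < n := by linarith
      have h9 : Q ^ ((n : ℝ) / 2) / C ^ (((n : ℝ) - 2) / 2) < m * sobolevS n ^ ((n : ℝ) / 2) := by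
        have h10 : X ^ (((n : ℝ) - 2) / 2) ≤ C ^ (((n : ℝ) - 2) / 2) :=
          Real.rpow_le_rpow hXp.le hCge (by linarith)
        have h11 : T < C ^ (((n : ℝ) - 2) / 2) := lt_of_lt_of_le hXT h10
        rw [hT, div_lt_iff₀ (by positivity)] at h11
        rw [div_lt_iff₀ (Real.rpow_pos_of_pos hCp _)]
        linarith
      calc 1 / (n : ℝ) * (Q ^ ((n : ℝ) / 2) / C ^ (((n : ℝ) - 2) / 2))
          < 1 / (n : ℝ) * (m * sobolevS n ^ ((n : ℝ) / 2)) :=
            mul_lt_mul_of_pos_left h9 (by positivity)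
        _ = m * (1 / (n : ℝ) * sobolevS n ^ ((n : ℝ) / 2)) := by ring
  have h12 : lamStar Θ a b c ≤ ((-M' : ℝ) : EReal) := sInf_le ⟨-M', hmem, rfl⟩
  exact h12.trans (EReal.coe_le_coe_iff.2 (by linarith))

/-- the hypothesis of the problem: the minimum points of `f` on the closure of `Θ` are boundary
points, and `∇f ≠ 0` there -/
def NonstationaryBoundaryMin {n : ℕ} (Θ : Set (E n)) (F : E n → ℝ) : Prop :=
  ∀ x ∈ closure Θ, (∀ y ∈ closure Θ, F x ≤ F y) → x ∈ frontier Θ ∧ gradient F x ≠ 0

/-- smooth and positive on `ℝⁿ` -/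
def SmoothPos {n : ℕ} (a : E n → ℝ) : Prop := ContDiff ℝ ∞ a ∧ ∀ x, 0 < a x

theorem exists_nonstationary (n : ℕ) (hn : 3 ≤ n) (Θ : Set (E n)) (ho : IsOpen Θ) :
    ∃ F : E n → ℝ, ContDiff ℝ ∞ F ∧ (∀ x, 0 < F x) ∧ NonstationaryBoundaryMin Θ F := by
  have hn0 : 0 < n := by omega
  let i : Fin n := ⟨0, hn0⟩
  let L : E n →L[ℝ] ℝ := EuclideanSpace.proj i
  have hd : ∀ x, HasFDerivAt (fun x : E n => Real.exp (L x)) (Real.exp (L x) • L) x := fun x =>
    (L.hasFDerivAt (x := x)).exp
  have hgne : ∀ x, gradient (fun x : E n => Real.exp (L x)) x ≠ 0 := by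
    intro x h0
    have h1 : fderiv ℝ (fun x : E n => Real.exp (L x)) x = 0 := by
      unfold gradient at h0
      simpa using h0
    rw [(hd x).fderiv] at h1
    have h2 := congrArg (fun T : E n →L[ℝ] ℝ => T (EuclideanSpace.single i 1)) h1
    simp [L] at h2
  refine ⟨fun x => Real.exp (L x), Real.contDiff_exp.comp L.contDiff, fun x => Real.exp_pos _, ?_⟩
  intro x hx hmin
  refine ⟨?_, hgne x⟩
  rw [frontier, ho.interior_eq]
  refine ⟨hx, fun hxi => ?_⟩
  have hloc : IsLocalMin (fun x : E n => Real.exp (L x)) x := by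
    filter_upwards [ho.mem_nhds hxi] with y hy
    exact hmin y (subset_closure hy)
  have h1 := hloc.fderiv_eq_zero
  apply hgne x
  unfold gradient
  rw [h1, map_zero]

end Pool.Agent.Q62.AG
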