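import Pool.Agent.Q62.AG.Defs

open MeasureTheory Set Filter Topology
open scoped ENNReal NNReal ContDiff

namespace Pool.Agent.Q62.AG

theorem norm_gradient_eq {n : ℕ} (φ : E n → ℝ) (x : E n) : ‖gradient φ x‖ = ‖fderiv ℝ φ x‖ := by
  unfold gradient
  simp

theorem twoStar_pos {n : ℕ} (hn : 3 ≤ n) : 2 < twoStar n := by
  have h3 : (3 : ℝ) ≤ n := by exact_mod_cast hn
  unfold twoStar
  rw [lt_div_iff₀ (by linarith)]
  linarith

/-- the Sobolev inequality, in integral form -/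
theorem sobolev (n : ℕ) (hn : 3 ≤ n) : ∃ K : ℝ, 0 < K ∧ ∀ φ : E n → ℝ, IsTest univ φ →
    (∫ x, |φ x| ^ twoStar n) ^ (2 / twoStar n) ≤ K * ∫ x, ‖gradient φ x‖ ^ 2 := by
  have h3 : (3 : ℝ) ≤ n := by exact_mod_cast hn
  have hts := twoStar_pos hn
  have hts0 : 0 < twoStar n := by linarith
  set p' : ℝ≥0 := ⟨twoStar n, hts0.le⟩ with hp'
  have hp'c : (p' : ℝ) = twoStar n := rfl
  set C : ℝ≥0 := SNormLESNormFDerivOfEqConst ℝ (volume : Measure (E n)) ((2 : ℝ≥0) : ℝ) with hC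
  refine ⟨(C : ℝ) ^ 2 + 1, by positivity, ?_⟩
  intro φ hφ
  have h1 : ContDiff ℝ 1 φ := hφ.1.of_le (by norm_cast)
  have key := eLpNorm_le_eLpNorm_fderiv_of_eq (volume : Measure (E n)) (p := 2) (p' := p') h1 hφ.2.1
    one_le_two (by simp only [finrank_euclideanSpace, Fintype.card_fin]; omega) (by
      rw [hp'c]; unfold twoStar
      simp only [finrank_euclideanSpace, Fintype.card_fin]
      push_cast
      have : (n : ℝ) - 2 ≠ 0 := by linarith
      have : (n : ℝ) ≠ 0 := by linarith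
      field_simp)
  have hpne : (p' : ℝ≥0∞) ≠ 0 := by
    simp only [ne_eq, ENNReal.coe_eq_zero]
    intro h0
    have : (p' : ℝ) = 0 := by rw [h0]; rfl
    linarith
  have hmem : MemLp φ p' (volume : Measure (E n)) := h1.continuous.memLp_of_hasCompactSupport hφ.2.1
  have hmem2 : MemLp (fderiv ℝ φ) 2 (volume : Measure (E n)) :=
    (h1.continuous_fderiv (by norm_num)).memLp_of_hasCompactSupport (hφ.2.1.fderiv ℝ)
  have e1 := hmem.eLpNorm_eq_integral_rpow_norm hpne ENNReal.coe_ne_top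
  have e2 := hmem2.eLpNorm_eq_integral_rpow_norm (by norm_num) (by norm_num)
  rw [show ((2 : ℝ≥0) : ℝ≥0∞) = 2 by norm_num] at key
  rw [e1, e2] at key
  set A : ℝ := ∫ x, |φ x| ^ twoStar n with hA
  set B : ℝ := ∫ x, ‖gradient φ x‖ ^ 2 with hB
  have hA0 : 0 ≤ A := integral_nonneg (fun x => by positivity)
  have hB0 : 0 ≤ B := integral_nonneg (fun x => by positivity)
  have eA : (∫ x, ‖φ x‖ ^ (p' : ℝ≥0∞).toReal) = A := by
    simp only [ENNReal.coe_toReal, hp'c, Real.norm_eq_abs, hA]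
  have eB : (∫ x, ‖fderiv ℝ φ x‖ ^ (2 : ℝ≥0∞).toReal) = B := by
    rw [hB]
    refine integral_congr_ae (Eventually.of_forall fun x => ?_)
    simp only [ENNReal.toReal_ofNat]
    rw [norm_gradient_eq]
    norm_num
  rw [eA, eB] at key
  have key2 : A ^ (twoStar n)⁻¹ ≤ C * B ^ (1 / 2 : ℝ) := by
    have h4 : (C : ℝ≥0∞) * ENNReal.ofReal (B ^ (2 : ℝ≥0∞).toReal⁻¹)
        = ENNReal.ofReal (C * B ^ (1 / 2 : ℝ)) := by
      rw [ENNReal.ofReal_mul (by positivity), ENNReal.ofReal_coe_nnreal]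
      norm_num
    rw [h4] at key
    have := (ENNReal.ofReal_le_ofReal_iff (by positivity)).1 key
    simpa [hp'c] using this
  have hpow : (A ^ (twoStar n)⁻¹) ^ 2 ≤ (C * B ^ (1 / 2 : ℝ)) ^ 2 :=
    pow_le_pow_left₀ (by positivity) key2 2
  have e3 : (A ^ (twoStar n)⁻¹) ^ 2 = A ^ (2 / twoStar n) := by
    rw [← Real.rpow_natCast, ← Real.rpow_mul hA0]
    congr 1
    push_cast
    field_simp
  have e4 : (C * B ^ (1 / 2 : ℝ)) ^ 2 = C ^ 2 * B := by
    rw [mul_pow, ← Real.rpow_natCast (B ^ (1 / 2 : ℝ)), ← Real.rpow_mul hB0]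
    norm_num
  rw [e3, e4] at hpow
  nlinarith

/-- a nonzero test function has a positive `L^{2*}` integral -/
theorem pos_int {n : ℕ} (hn : 3 ≤ n) (φ : E n → ℝ) (hφ : IsTest univ φ) (h0 : φ ≠ 0) :
    0 < ∫ x, |φ x| ^ twoStar n := by
  have hts := twoStar_pos hn
  have hc : Continuous fun x => |φ x| ^ twoStar n := by
    refine (hφ.1.continuous.abs).rpow_const (fun x => Or.inr (by linarith))
  obtain ⟨x0, hx0⟩ : ∃ x, φ x ≠ 0 := by
    by_contra hcon
    push Not at hcon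
    exact h0 (funext hcon)
  refine hc.integral_pos_of_hasCompactSupport_nonneg_nonzero (x := x0) ?_
    (fun x => by positivity) ?_
  · refine hφ.2.1.mono ?_
    intro x hx
    simp only [Function.mem_support, ne_eq] at hx ⊢
    intro h
    apply hx
    rw [h, abs_zero, Real.zero_rpow (by linarith)]
  · have : 0 < |φ x0| := abs_pos.2 hx0
    positivity

theorem exists_test {n : ℕ} (Θ : Set (E n)) (ho : IsOpen Θ) (x0 : E n) (hx0 : x0 ∈ Θ) :
    ∃ r : ℝ, 0 < r ∧ ∃ φ : E n → ℝ, IsTest Θ φ ∧ (∀ x ∈ Metric.closedBall x0 r, φ x = 1) ∧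
      ∀ x, 0 ≤ φ x ∧ φ x ≤ 1 := by
  obtain ⟨ρ, hρ, hsub⟩ := Metric.isOpen_iff.1 ho x0 hx0
  let f : ContDiffBump x0 := ⟨ρ / 4, ρ / 2, by positivity, by linarith⟩
  refine ⟨ρ / 4, by positivity, f, ⟨f.contDiff, f.hasCompactSupport, ?_⟩, ?_, ?_⟩
  · rw [f.tsupport_eq]
    refine (Metric.closedBall_subset_ball ?_).trans hsub
    change ρ / 2 < ρ
    linarith
  · intro x hx
    exact f.one_of_mem_closedBall hx
  · intro x
    exact ⟨f.nonneg, f.le_one⟩

theorem sobolevS_pos (n : ℕ) (hn : 3 ≤ n) : 0 < sobolevS n := by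
  obtain ⟨K, hK, hS⟩ := sobolev n hn
  have : 1 / K ≤ sobolevS n := by
    refine le_csInf ?_ ?_
    · obtain ⟨r, hr, φ, hφ, h1, -⟩ := exists_test (univ : Set (E n)) isOpen_univ 0 (mem_univ _)
      refine ⟨_, φ, hφ, ?_, rfl⟩
      intro h0
      have := h1 0 (Metric.mem_closedBall_self hr.le)
      rw [h0] at this
      simp at this
    · rintro q ⟨φ, hφ, h0, rfl⟩
      have h1 := hS φ hφ
      have h2 := pos_int hn φ hφ h0
      have h3 : 0 < (∫ x, |φ x| ^ twoStar n) ^ (2 / twoStar n) := Real.rpow_pos_of_pos h2 _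
      rw [div_le_div_iff₀ hK h3]
      linarith
  have h4 : 0 < 1 / K := by positivity
  linarith

end Pool.Agent.Q62.AG
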